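import Pool.Agent.N194.DL.Stm4

/-!
# Project DL, part 4: Tsen's theorem for conics over `ℂ[z]` and on discs

`conic_poly` is taken from `Pool.Agent.H928R2.PenTsen`.
-/

set_option autoImplicit false

namespace Pool.Agent.N75.DL

section Conic

open Polynomial

variable {k : Type*} [Field k] [IsAlgClosed k] [CharZero k]

theorem conic_poly : ∀ (n : ℕ) (a b : k[X]), a.natDegree + b.natDegree ≤ n →
    ∃ x y z : k[X], (x ≠ 0 ∨ y ≠ 0 ∨ z ≠ 0) ∧ x ^ 2 = a * y ^ 2 + b * z ^ 2 := by
  classical
  intro n
  induction n using Nat.strong_induction_on with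
  | _ n ih =>
  -- the case of a constant coefficient
  have hconst : ∀ (a b : k[X]), a.natDegree = 0 →
      ∃ x y z : k[X], (x ≠ 0 ∨ y ≠ 0 ∨ z ≠ 0) ∧ x ^ 2 = a * y ^ 2 + b * z ^ 2 := by
    intro a b ha
    obtain ⟨e, he⟩ := IsAlgClosed.exists_pow_nat_eq (a.coeff 0) (n := 2) two_pos
    refine ⟨C e, 1, 0, Or.inr (Or.inl one_ne_zero), ?_⟩
    rw [← C_pow, he, ← eq_C_of_natDegree_eq_zero ha]
    ring
  -- the ordered case
  have hmain : ∀ (a b : k[X]), a.natDegree + b.natDegree ≤ n → a.natDegree ≤ b.natDegree →
      ∃ x y z : k[X], (x ≠ 0 ∨ y ≠ 0 ∨ z ≠ 0) ∧ x ^ 2 = a * y ^ 2 + b * z ^ 2 := by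
    intro a b hab hle
    by_cases ha0 : a.natDegree = 0
    · exact hconst a b ha0
    have hb1 : 1 ≤ b.natDegree := by omega
    have hb0 : b ≠ 0 := by
      rintro rfl
      simp at hb1
    by_cases hsq : Squarefree b
    · -- the roots of b
      set S : Finset k := b.roots.toFinset with hS
      have hsplit : b.Splits := IsAlgClosed.splits b
      have hnodup : b.roots.Nodup := by
        have hsep : b.Separable := (PerfectField.separable_iff_squarefree).2 hsq
        exact nodup_roots hsep
      have hcard : S.card = b.natDegree := by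
        rw [hS, Multiset.toFinset_card_of_nodup hnodup, ← hsplit.natDegree_eq_card_roots]
      choose r hr using fun β : k => IsAlgClosed.exists_pow_nat_eq (a.eval β) (n := 2) two_pos
      set s : k[X] := Lagrange.interpolate S id r with hs
      have hinj : Set.InjOn (id : k → k) (S : Set k) := Function.injective_id.injOn
      have hsdeg : s.natDegree < b.natDegree := by
        rw [← hcard]
        have h1 := Lagrange.degree_interpolate_lt r hinj
        have h2 : s.degree < (S.card : WithBot ℕ) := h1
        rw [Polynomial.degree_lt_iff_coeff_zero] at h2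
        by_contra hcon
        push Not at hcon
        have h3 := h2 s.natDegree hcon
        have h4 : s = 0 := leadingCoeff_eq_zero.1 h3
        rw [h4, natDegree_zero] at hcon
        omega
      have hseval : ∀ β ∈ S, s.eval β = r β := by
        intro β hβ
        exact Lagrange.eval_interpolate_at_node r hinj hβ
      by_cases hz : s ^ 2 - a = 0
      · refine ⟨s, 1, 0, Or.inr (Or.inl one_ne_zero), ?_⟩
        linear_combination hz
      have hdvd : b ∣ s ^ 2 - a := by
        rw [IsAlgClosed.dvd_iff_roots_le_roots hb0 hz, Multiset.le_iff_subset hnodup]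
        intro β hβ
        rw [mem_roots hz, IsRoot.def, eval_sub, eval_pow, hseval β (Multiset.mem_toFinset.2 hβ), hr]
        ring
      obtain ⟨b', hb'⟩ := hdvd
      have hb'0 : b' ≠ 0 := by
        rintro rfl
        apply hz
        rw [hb', mul_zero]
      have hdeg : (s ^ 2 - a).natDegree = b.natDegree + b'.natDegree := by
        rw [hb', natDegree_mul hb0 hb'0]
      have hdeg2 : (s ^ 2 - a).natDegree ≤ max (2 * s.natDegree) a.natDegree := by
        refine (natDegree_sub_le _ _).trans ?_
        rw [natDegree_pow]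
      have hlt : b'.natDegree < b.natDegree := by
        have h3 : max (2 * s.natDegree) a.natDegree < 2 * b.natDegree := by
          rw [max_lt_iff]
          constructor <;> omega
        omega
      obtain ⟨x, y, z, hne, hxyz⟩ := ih (a.natDegree + b'.natDegree) (by omega) a b' le_rfl
      refine ⟨s * x + a * y, x + s * y, b' * z, ?_, ?_⟩
      · by_contra hcon
        push Not at hcon
        obtain ⟨h1, h2, h3⟩ := hcon
        have hz0 : z = 0 := by
          rcases mul_eq_zero.1 h3 with h | h
          · exact absurd h hb'0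
          · exact h
        have hx0 : x = - (s * y) := by linear_combination h2
        have hy : (s ^ 2 - a) * y = 0 := by
          rw [hx0] at h1
          linear_combination -h1
        have hy0 : y = 0 := by
          rcases mul_eq_zero.1 hy with h | h
          · exact absurd h hz
          · exact h
        rw [hy0, mul_zero, neg_zero] at hx0
        rcases hne with h | h | h
        · exact h hx0
        · exact h hy0
        · exact h hz0
      · linear_combination (s ^ 2 - a) * hxyz + b' * z ^ 2 * hb'
    · -- not squarefree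
      unfold Squarefree at hsq
      push Not at hsq
      obtain ⟨c, ⟨b'', hb''⟩, hc⟩ := hsq
      have hc0 : c ≠ 0 := by
        rintro rfl
        apply hb0
        rw [hb'']; ring
      have hb''0 : b'' ≠ 0 := by
        rintro rfl
        apply hb0
        rw [hb'', mul_zero]
      have hcdeg : 1 ≤ c.natDegree := by
        by_contra hcon
        have h0 : c.natDegree = 0 := by omega
        apply hc
        rw [eq_C_of_natDegree_eq_zero h0]
        rw [isUnit_C]
        apply isUnit_iff_ne_zero.2
        intro h1
        apply hc0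
        rw [eq_C_of_natDegree_eq_zero h0, h1, C_0]
      have hdeg : b.natDegree = c.natDegree + c.natDegree + b''.natDegree := by
        rw [hb'', natDegree_mul (mul_ne_zero hc0 hc0) hb''0, natDegree_mul hc0 hc0]
      obtain ⟨x, y, z, hne, hxyz⟩ := ih (a.natDegree + b''.natDegree) (by omega) a b'' le_rfl
      refine ⟨c * x, c * y, z, ?_, ?_⟩
      · rcases hne with h | h | h
        · exact Or.inl (mul_ne_zero hc0 h)
        · exact Or.inr (Or.inl (mul_ne_zero hc0 h))
        · exact Or.inr (Or.inr h)
      · rw [hb'']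
        linear_combination c ^ 2 * hxyz
  intro a b hab
  rcases le_total a.natDegree b.natDegree with h | h
  · exact hmain a b hab h
  · obtain ⟨x, y, z, hne, hxyz⟩ := hmain b a (by omega) h
    refine ⟨x, z, y, ?_, ?_⟩
    · rcases hne with h | h | h
      · exact Or.inl h
      · exact Or.inr (Or.inr h)
      · exact Or.inr (Or.inl h)
    · rw [hxyz]; ring

end Conic

open Metric Pool.Agent.N194.DL

theorem tsenP : STsenP := by
  intro a b _ _
  obtain ⟨x, y, z, hne, h⟩ := conic_poly _ a b le_rfl
  refine ⟨y, z, x, ?_, h.symm⟩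
  tauto

theorem tsenD (h : SFactor) : STsenD := by
  intro a b ha hb ha0 hb0 R hR
  -- a nonzero value in every disc
  have hnz : ∀ f : ℂ → ℂ, Differentiable ℂ f → f ≠ 0 → ∃ z ∈ ball (0 : ℂ) (R + 1), f z ≠ 0 := by
    intro f hf hf0
    by_contra hcon
    push Not at hcon
    apply hf0
    have h1 : AnalyticOnNhd ℂ f Set.univ := fun z _ => hf.analyticAt z
    have h2 : f =ᶠ[nhds 0] 0 := by
      filter_upwards [ball_mem_nhds (0 : ℂ) (show (0 : ℝ) < R + 1 by linarith)] with z hz
      exact hcon z hz
    funext z
    exact h1.eqOn_zero_of_preconnected_of_eventuallyEq_zero isPreconnected_univ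
      (Set.mem_univ 0) h2 (Set.mem_univ z)
  obtain ⟨Qa, ha1, hQa, -, hha, hae⟩ := h a (R + 1) R hR (by linarith) ha.differentiableOn
    (hnz a ha ha0)
  obtain ⟨Qb, hb1, hQb, -, hhb, hbe⟩ := h b (R + 1) R hR (by linarith) hb.differentiableOn
    (hnz b hb hb0)
  obtain ⟨x, y, w, hne, hxy⟩ := tsenP Qa Qb hQa hQb
  refine ⟨![fun z => x.eval z * Complex.exp (-(ha1 z) / 2), fun z => y.eval z *
    Complex.exp (-(hb1 z) / 2), fun z => w.eval z], ?_, ?_, ?_⟩
  · intro i
    fin_cases i
    · exact (x.differentiable.differentiableOn).mul ((hha.neg.div_const 2).cexp)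
    · exact (y.differentiable.differentiableOn).mul ((hhb.neg.div_const 2).cexp)
    · exact w.differentiable.differentiableOn
  · -- a polynomial has finitely many zeros
    have hinf : (ball (0 : ℂ) R).Infinite :=
      infinite_of_mem_nhds 0 (ball_mem_nhds 0 hR)
    have hp : ∀ p : Polynomial ℂ, p ≠ 0 → ∃ z ∈ ball (0 : ℂ) R, p.eval z ≠ 0 := by
      intro p hp
      by_contra hcon
      push Not at hcon
      exact hp (Polynomial.eq_zero_of_infinite_isRoot p (hinf.mono fun z hz => hcon z hz))
    rcases hne with hx | hy | hw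
    · obtain ⟨z, hz, hz1⟩ := hp x hx
      exact ⟨z, hz, 0, mul_ne_zero hz1 (Complex.exp_ne_zero _)⟩
    · obtain ⟨z, hz, hz1⟩ := hp y hy
      exact ⟨z, hz, 1, mul_ne_zero hz1 (Complex.exp_ne_zero _)⟩
    · obtain ⟨z, hz, hz1⟩ := hp w hw
      exact ⟨z, hz, 2, hz1⟩
  · intro z hz
    have h1 := congrArg (Polynomial.eval z) hxy
    simp only [Polynomial.eval_add, Polynomial.eval_mul, Polynomial.eval_pow] at h1
    have e : ∀ u : ℂ, Complex.exp u * Complex.exp (-u / 2) ^ 2 = 1 := by
      intro u
      rw [← Complex.exp_nat_mul, ← Complex.exp_add]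
      have : u + ((2 : ℕ) : ℂ) * (-u / 2) = 0 := by push_cast; ring
      rw [this, Complex.exp_zero]
    show a z * (x.eval z * Complex.exp (-(ha1 z) / 2)) ^ 2 +
      b z * (y.eval z * Complex.exp (-(hb1 z) / 2)) ^ 2 = w.eval z ^ 2
    rw [hae z hz, hbe z hz, ← h1]
    linear_combination (Qa.eval z * x.eval z ^ 2) * e (ha1 z) +
      (Qb.eval z * y.eval z ^ 2) * e (hb1 z)

end Pool.Agent.N75.DL
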